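import Pool.Agent.U529.CP.Tab

set_option autoImplicit false

/-!
# No commuting endomorphisms compress to the three maps

Let `f_i(z) = θ_i(E) z` for `E` the projection onto `Ω` (an element of the product system of the
endomorphism `θ_i`), and `f * g = θ_j(f) g` for `g` in the product system of `θ_j`. If all products of
two shifts are isometric, `f_i(z) * f_j(w) = f_{ij}(S_j(w) z)`. So
`f_1(z) * f_2(b) = f_2(b) * f_1(W z)`, `f_1(z) * f_3(c) = f_3(c) * f_1(U z)` and
`f_2(b) * f_3(c) = f_3(c) * f_2(b)` for unitary matrices `U, W` which do not commute; this contradicts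
the associativity of the product, as in the Yang-Baxter equation.
-/

namespace Pool.Agent.U529.CP

open Matrix

/-- columns, for the three maps -/
def srcF : Fin 3 → Fin 11 → Fin 11 → Fin 11 := ![src0, src1, src2]

/-- entries, for the three maps -/
def sgF : Fin 3 → Fin 11 → Fin 11 → ℤ := ![sg0, sg1, sg2]

/-- relevant Kraus operators, for the three maps -/
def kkF : Fin 3 → Fin 11 → Fin 11 → Fin 11 := ![kk0, kk1, kk2]

/-- the three maps -/
def t (i : Fin 3) : Mat → Mat := tt (srcF i) (sgF i) (kkF i)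

/-- entries of the images of matrix units -/
theorem tt_single (src : Fin 11 → Fin 11 → Fin 11) (sg : Fin 11 → Fin 11 → ℤ)
    (kk : Fin 11 → Fin 11 → Fin 11) (x y r c : Fin 11) :
    tt src sg kk (single x y 1) r c =
      ((if x = src (kk r c) r ∧ y = src (kk r c) c then sg (kk r c) r * sg (kk r c) c else 0 : ℤ) : ℂ) := by
  simp only [tt, Matrix.of_apply, Matrix.single_apply]
  split_ifs <;> simp

theorem tt_tt_single (src : Fin 11 → Fin 11 → Fin 11) (sg : Fin 11 → Fin 11 → ℤ)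
    (kk : Fin 11 → Fin 11 → Fin 11) (src' : Fin 11 → Fin 11 → Fin 11) (sg' : Fin 11 → Fin 11 → ℤ)
    (kk' : Fin 11 → Fin 11 → Fin 11) (x y r c : Fin 11) :
    tt src sg kk (tt src' sg' kk' (single x y 1)) r c =
      ((if x = row2 src kk src' kk' r c ∧ y = col2 src kk src' kk' r c then
        wt2 src sg kk sg' kk' r c else 0 : ℤ) : ℂ) := by
  rw [tt_tt, Matrix.single_apply]
  split_ifs <;> simp

section

variable {B : Type*} [NonUnitalRing B] [StarRing B] [Module ℂ B] [IsScalarTower ℂ B B]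
  [SMulCommClass ℂ B B] [StarModule ℂ B]

/-- the data of a dilation -/
structure Data (B : Type*) [NonUnitalRing B] [StarRing B] [Module ℂ B] [IsScalarTower ℂ B B]
    [SMulCommClass ℂ B B] [StarModule ℂ B] where
  pos : ∀ x : B, star x * x = 0 → x = 0
  ι : Mat →⋆ₙₐ[ℂ] B
  inj : Function.Injective ι
  C : B → Mat
  hC : ∀ b, ι 1 * b * ι 1 = ι (C b)
  θ : Fin 3 → (B →⋆ₙₐ[ℂ] B)
  comm : ∀ i j b, θ i (θ j b) = θ j (θ i b)
  dil : ∀ i a, C (θ i (ι a)) = t i a

variable (D : Data B)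

theorem unital (i : Fin 3) : t i 1 = 1 := by
  fin_cases i
  · exact unital0
  · exact unital1
  · exact unital2

namespace Data

theorem C_ι (a : Mat) : D.C (D.ι a) = a := by
  apply D.inj
  rw [← D.hC, ← map_mul, ← map_mul, one_mul, mul_one]

theorem mid (a a' : Mat) (b : B) : D.ι a * b * D.ι a' = D.ι (a * D.C b * a') := by
  rw [map_mul, map_mul, ← D.hC]
  have h1 : D.ι a = D.ι a * D.ι 1 := by rw [← map_mul, mul_one]
  have h2 : D.ι a' = D.ι 1 * D.ι a' := by rw [← map_mul, one_mul]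
  conv_lhs => rw [h1, h2]
  simp only [mul_assoc]

theorem left_fix (i : Fin 3) : D.θ i (D.ι 1) * D.ι 1 = D.ι 1 := by
  set P := D.ι 1 with hP
  set Q := D.θ i P with hQ
  have hPP : P * P = P := by rw [hP, ← map_mul, one_mul]
  have hQQ : Q * Q = Q := by rw [hQ, ← map_mul, hPP]
  have hPs : star P = P := by rw [hP, ← map_star, star_one]
  have hQs : star Q = Q := by rw [hQ, ← map_star, hPs]
  have hPQP : P * Q * P = P := by
    rw [hP, D.hC, ← hP, hQ, hP, D.dil, unital]
  have h := D.pos (Q * P - P) (by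
    rw [star_sub, star_mul, hQs, hPs, sub_mul, mul_sub, mul_sub]
    have e1 : P * Q * (Q * P) = P := by rw [mul_assoc, ← mul_assoc Q, hQQ, ← mul_assoc, hPQP]
    have e2 : P * (Q * P) = P := by rw [← mul_assoc, hPQP]
    rw [e1, hPQP, e2, hPP]
    simp)
  exact sub_eq_zero.1 h

theorem right_fix (i : Fin 3) : D.ι 1 * D.θ i (D.ι 1) = D.ι 1 := by
  have h := congrArg star (D.left_fix i)
  rw [star_mul, ← map_star, ← map_star, ← map_star, star_one] at h
  exact h

theorem C_θ (i : Fin 3) (b : B) : D.C (D.θ i b) = t i (D.C b) := by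
  apply D.inj
  rw [← D.dil i, ← D.hC, ← D.hC, ← D.hC, map_mul, map_mul]
  have h1 := D.left_fix i
  have h2 := D.right_fix i
  calc D.ι 1 * D.θ i b * D.ι 1 = (D.ι 1 * D.θ i (D.ι 1)) * D.θ i b * (D.θ i (D.ι 1) * D.ι 1) := by
        rw [h1, h2]
    _ = _ := by simp only [mul_assoc]

/-- the projection onto the vacuum -/
def E : B := D.ι (single 0 0 1)

/-- the operator of rank one which maps the vacuum to the basis vector `z` -/
def a (z : Fin 11) : B := D.ι (single z 0 1)

theorem EE : D.E * D.E = D.E := by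
  unfold E; rw [← map_mul, single_mul_single_same, mul_one]

theorem star_E : star D.E = D.E := by
  unfold E
  rw [← map_star]
  congr 1
  rw [Matrix.star_eq_conjTranspose, Matrix.conjTranspose_single, star_one]

theorem aE (z : Fin 11) : D.a z * D.E = D.a z := by
  unfold E a; rw [← map_mul, single_mul_single_same, mul_one]

theorem star_a (z : Fin 11) : star (D.a z) = D.ι (single 0 z 1) := by
  unfold a
  rw [← map_star]
  congr 1
  rw [Matrix.star_eq_conjTranspose, Matrix.conjTranspose_single, star_one]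

theorem single_mid (v w : Fin 11) (M : Mat) :
    single 0 v 1 * M * single w 0 1 = M v w • (single 0 0 1 : Mat) := by
  ext r c
  rw [Matrix.mul_apply, Finset.sum_eq_single w, Matrix.mul_apply, Finset.sum_eq_single v]
  · by_cases hr : r = 0
    · by_cases hc : c = 0
      · simp [hr, hc]
      · simp [hr, Ne.symm hc]
    · simp [Ne.symm hr]
  · intro b _ hb
    simp [hb.symm]
  · intro h; exact absurd (Finset.mem_univ _) h
  · intro b _ hb
    simp [hb.symm]
  · intro h; exact absurd (Finset.mem_univ _) h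

theorem mid_a (v w : Fin 11) (b : B) : star (D.a v) * b * D.a w = D.C b v w • D.E := by
  rw [star_a, a, mid, single_mid, map_smul]
  rfl

theorem E_ne : D.E ≠ 0 := by
  intro h
  unfold E at h
  have h1 : D.ι (single 0 0 1) = D.ι 0 := by rw [h, map_zero]
  have h2 := D.inj h1
  have h3 := congrFun (congrFun h2 0) 0
  simp at h3

/-- the norm of `θ_i(E) a_z` -/
theorem norm_f (i : Fin 3) (z : Fin 11) (h1 : t i (single 0 0 1) z z = 1) :
    star (D.a z) * D.θ i D.E * D.a z = D.E := by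
  rw [mid_a, C_θ]
  unfold E
  rw [C_ι, h1, one_smul]

theorem key (i j : Fin 3) (z w v : Fin 11) (ε : ℂ) (hε : ε * ε = 1) (hε' : star ε = ε)
    (h1 : t i (single 0 0 1) * single z 0 1 = single z 0 1)
    (h2 : t j (single 0 0 1) w w = 1) (h3 : t j (t i (single 0 0 1)) v v = 1)
    (h4 : t j (single z 0 1) v w = ε) :
    D.θ j (D.θ i D.E * D.a z) * D.a w = ε • (D.θ j (D.θ i D.E) * D.a v) := by
  have hzz : t i (single 0 0 1) z z = 1 := by
    have h := congrFun (congrFun h1 z) 0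
    rw [Matrix.mul_apply, Finset.sum_eq_single z] at h
    · simpa using h
    · intro b _ hb
      simp [hb.symm]
    · intro h; exact absurd (Finset.mem_univ _) h
  have hFF : D.θ i D.E * D.θ i D.E = D.θ i D.E := by rw [← map_mul, D.EE]
  have hFs : star (D.θ i D.E) = D.θ i D.E := by rw [← map_star, D.star_E]
  set G := D.θ j (D.θ i D.E) with hG
  have hGG : G * G = G := by rw [hG, ← map_mul, hFF]
  have hGs : star G = G := by rw [hG, ← map_star, hFs]
  set α := D.θ j (D.θ i D.E * D.a z) * D.a w with hα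
  set β := G * D.a v with hβ
  have hαα : star α * α = D.E := by
    rw [hα, star_mul, ← map_star, star_mul, hFs]
    calc star (D.a w) * D.θ j (star (D.a z) * D.θ i D.E) * (D.θ j (D.θ i D.E * D.a z) * D.a w)
        = star (D.a w) * D.θ j (star (D.a z) * (D.θ i D.E * D.θ i D.E) * D.a z) * D.a w := by
          simp only [map_mul, mul_assoc]
      _ = star (D.a w) * D.θ j D.E * D.a w := by
          rw [hFF, D.norm_f i z hzz]
      _ = D.E := D.norm_f j w h2
  have hββ : star β * β = D.E := by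
    rw [hβ, star_mul, hGs]
    calc star (D.a v) * G * (G * D.a v) = star (D.a v) * (G * G) * D.a v := by
          simp only [mul_assoc]
      _ = D.E := by
        rw [hGG, hG, mid_a, C_θ, C_θ]
        unfold E
        rw [C_ι, h3, one_smul]
  have hCz : D.C (D.θ i D.E * D.a z) = single z 0 1 := by
    apply D.inj
    rw [← D.hC]
    have e1 : D.a z * D.ι 1 = D.ι 1 * D.a z := by
      unfold a
      rw [← map_mul, ← map_mul, one_mul, mul_one]
    calc D.ι 1 * (D.θ i D.E * D.a z) * D.ι 1 = D.ι 1 * D.θ i D.E * (D.a z * D.ι 1) := by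
          simp only [mul_assoc]
      _ = (D.ι 1 * D.θ i D.E * D.ι 1) * D.a z := by
          rw [e1]; simp only [mul_assoc]
      _ = D.ι (single z 0 1) := by
          rw [D.hC, C_θ]
          unfold E a
          rw [C_ι, ← map_mul, h1]
  have hβα : star β * α = ε • D.E := by
    rw [hβ, hα, star_mul, hGs]
    calc star (D.a v) * G * (D.θ j (D.θ i D.E * D.a z) * D.a w)
        = star (D.a v) * (D.θ j ((D.θ i D.E * D.θ i D.E) * D.a z)) * D.a w := by
          rw [hG]; simp only [map_mul, mul_assoc]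
      _ = ε • D.E := by
          rw [hFF, mid_a, C_θ, hCz, h4]
  have hαβ : star α * β = ε • D.E := by
    have h := congrArg star hβα
    rw [star_mul, star_star, star_smul, D.star_E, hε'] at h
    exact h
  have hfin := D.pos (α - ε • β) (by
    rw [star_sub, star_smul, hε', sub_mul, mul_sub, mul_sub, mul_smul_comm, smul_mul_assoc,
      smul_mul_assoc, mul_smul_comm, hαα, hββ, hβα, hαβ]
    simp only [smul_smul, hε, one_smul]
    simp)
  exact sub_eq_zero.1 hfin

/-- matrices with a unit vector as a column -/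
theorem col_eq {M : Mat} {z : Fin 11} (h : ∀ r, M r z = if r = z then 1 else 0) :
    M * single z 0 1 = single z 0 1 := by
  ext r c
  rw [Matrix.mul_apply, Finset.sum_eq_single z]
  · rw [h]
    by_cases hr : r = z
    · by_cases hc : c = 0
      · simp [hr, hc]
      · simp [hr, Ne.symm hc]
    · simp [hr, Ne.symm hr]
  · intro b _ hb
    simp [hb.symm]
  · intro h; exact absurd (Finset.mem_univ _) h

/-- the coefficient of the matrix unit `(x, y)` in the entry `(r, c)` of `t i` -/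
def co (i : Fin 3) (x y r c : Fin 11) : ℤ :=
  if x = srcF i (kkF i r c) r ∧ y = srcF i (kkF i r c) c then
    sgF i (kkF i r c) r * sgF i (kkF i r c) c else 0

/-- the coefficient of the matrix unit `(x, y)` in the entry `(r, c)` of `t j ∘ t i` -/
def co2 (j i : Fin 3) (x y r c : Fin 11) : ℤ :=
  if x = row2 (srcF j) (kkF j) (srcF i) (kkF i) r c ∧
    y = col2 (srcF j) (kkF j) (srcF i) (kkF i) r c then
    wt2 (srcF j) (sgF j) (kkF j) (sgF i) (kkF i) r c else 0

theorem t_single (i : Fin 3) (x y r c : Fin 11) : t i (single x y 1) r c = (co i x y r c : ℂ) :=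
  tt_single _ _ _ x y r c

theorem t_t_single (j i : Fin 3) (x y r c : Fin 11) :
    t j (t i (single x y 1)) r c = (co2 j i x y r c : ℂ) :=
  tt_tt_single _ _ _ _ _ _ x y r c

theorem keyZ (i j : Fin 3) (z w v : Fin 11) (e : ℤ) (he : e * e = 1)
    (h1 : ∀ r, co i 0 0 r z = if r = z then 1 else 0)
    (h2 : co j 0 0 w w = 1) (h3 : co2 j i 0 0 v v = 1) (h4 : co j z 0 v w = e) :
    D.θ j (D.θ i D.E * D.a z) * D.a w = (e : ℂ) • (D.θ j (D.θ i D.E) * D.a v) := by
  refine D.key i j z w v (e : ℂ) (by exact_mod_cast he) (by simp) (col_eq fun r => ?_) ?_ ?_ ?_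
  · rw [t_single, h1]
    split_ifs <;> simp
  · rw [t_single, h2]; simp
  · rw [t_t_single, h3]; simp
  · rw [t_single, h4]

theorem A1 : D.θ 1 (D.θ 0 D.E * D.a 1) * D.a 3 = D.θ 0 (D.θ 1 D.E * D.a 3) * D.a 2 := by
  rw [D.keyZ 0 1 1 3 6 1 (by norm_num) (by decide +kernel) (by decide +kernel) (by decide +kernel)
    (by decide +kernel), D.keyZ 1 0 3 2 6 1 (by norm_num) (by decide +kernel) (by decide +kernel)
    (by decide +kernel) (by decide +kernel), D.comm]

theorem B1 : D.θ 2 (D.θ 0 D.E * D.a 1) * D.a 4 = D.θ 0 (D.θ 2 D.E * D.a 4) * D.a 1 := by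
  rw [D.keyZ 0 2 1 4 7 1 (by norm_num) (by decide +kernel) (by decide +kernel) (by decide +kernel)
    (by decide +kernel), D.keyZ 2 0 4 1 7 1 (by norm_num) (by decide +kernel) (by decide +kernel)
    (by decide +kernel) (by decide +kernel), D.comm]

theorem B2 : D.θ 2 (D.θ 0 D.E * D.a 2) * D.a 4 = -(D.θ 0 (D.θ 2 D.E * D.a 4) * D.a 2) := by
  rw [D.keyZ 0 2 2 4 8 (-1) (by norm_num) (by decide +kernel) (by decide +kernel)
    (by decide +kernel) (by decide +kernel), D.keyZ 2 0 4 2 8 1 (by norm_num) (by decide +kernel)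
    (by decide +kernel) (by decide +kernel) (by decide +kernel), D.comm]
  simp

theorem C1 : D.θ 2 (D.θ 1 D.E * D.a 3) * D.a 4 = D.θ 1 (D.θ 2 D.E * D.a 4) * D.a 3 := by
  rw [D.keyZ 1 2 3 4 9 1 (by norm_num) (by decide +kernel) (by decide +kernel) (by decide +kernel)
    (by decide +kernel), D.keyZ 2 1 4 3 9 1 (by norm_num) (by decide +kernel) (by decide +kernel)
    (by decide +kernel) (by decide +kernel), D.comm]

theorem contra (D : Data B) : False := by
  have hE : ∀ (i : Fin 3) (b : B) (z : Fin 11),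
      D.θ i (b * D.a z) * D.θ i D.E = D.θ i (b * D.a z) := by
    intro i b z
    rw [← map_mul, mul_assoc, D.aE]
  -- the first route
  have r1 : D.θ 2 (D.θ 1 (D.θ 0 D.E * D.a 1) * D.a 3) * D.a 4 =
      -(D.θ 0 (D.θ 2 (D.θ 1 D.E * D.a 3) * D.a 4) * D.a 2) := by
    calc D.θ 2 (D.θ 1 (D.θ 0 D.E * D.a 1) * D.a 3) * D.a 4
        = D.θ 2 (D.θ 0 (D.θ 1 D.E * D.a 3) * D.a 2) * D.a 4 := by rw [D.A1]
      _ = D.θ 2 ((D.θ 0 (D.θ 1 D.E * D.a 3) * D.θ 0 D.E) * D.a 2) * D.a 4 := by rw [hE]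
      _ = D.θ 2 (D.θ 0 (D.θ 1 D.E * D.a 3)) * (D.θ 2 (D.θ 0 D.E * D.a 2) * D.a 4) := by
          rw [mul_assoc, map_mul (D.θ 2), mul_assoc]
      _ = D.θ 0 (D.θ 2 (D.θ 1 D.E * D.a 3)) * -(D.θ 0 (D.θ 2 D.E * D.a 4) * D.a 2) := by
          rw [D.B2, D.comm 2 0]
      _ = -(D.θ 0 ((D.θ 2 (D.θ 1 D.E * D.a 3) * D.θ 2 D.E) * D.a 4) * D.a 2) := by
          rw [mul_neg, ← mul_assoc, ← map_mul (D.θ 0), mul_assoc]
      _ = _ := by rw [hE]
  -- the second route
  have r2 : D.θ 2 (D.θ 1 (D.θ 0 D.E * D.a 1) * D.a 3) * D.a 4 =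
      D.θ 0 (D.θ 2 (D.θ 1 D.E * D.a 3) * D.a 4) * D.a 2 := by
    calc D.θ 2 (D.θ 1 (D.θ 0 D.E * D.a 1) * D.a 3) * D.a 4
        = D.θ 2 ((D.θ 1 (D.θ 0 D.E * D.a 1) * D.θ 1 D.E) * D.a 3) * D.a 4 := by rw [hE]
      _ = D.θ 2 (D.θ 1 (D.θ 0 D.E * D.a 1)) * (D.θ 2 (D.θ 1 D.E * D.a 3) * D.a 4) := by
          rw [mul_assoc, map_mul (D.θ 2), mul_assoc]
      _ = D.θ 1 (D.θ 2 (D.θ 0 D.E * D.a 1)) * (D.θ 1 (D.θ 2 D.E * D.a 4) * D.a 3) := by
          rw [D.C1, D.comm 2 1]
      _ = D.θ 1 ((D.θ 2 (D.θ 0 D.E * D.a 1) * D.θ 2 D.E) * D.a 4) * D.a 3 := by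
          rw [← mul_assoc, ← map_mul (D.θ 1), mul_assoc]
      _ = D.θ 1 (D.θ 0 (D.θ 2 D.E * D.a 4) * D.a 1) * D.a 3 := by rw [hE, D.B1]
      _ = D.θ 1 ((D.θ 0 (D.θ 2 D.E * D.a 4) * D.θ 0 D.E) * D.a 1) * D.a 3 := by rw [hE]
      _ = D.θ 1 (D.θ 0 (D.θ 2 D.E * D.a 4)) * (D.θ 1 (D.θ 0 D.E * D.a 1) * D.a 3) := by
          rw [mul_assoc, map_mul (D.θ 1), mul_assoc]
      _ = D.θ 0 (D.θ 1 (D.θ 2 D.E * D.a 4)) * (D.θ 0 (D.θ 1 D.E * D.a 3) * D.a 2) := by
          rw [D.A1, D.comm 1 0]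
      _ = D.θ 0 ((D.θ 1 (D.θ 2 D.E * D.a 4) * D.θ 1 D.E) * D.a 3) * D.a 2 := by
          rw [← mul_assoc, ← map_mul (D.θ 0), mul_assoc]
      _ = D.θ 0 (D.θ 2 (D.θ 1 D.E * D.a 3) * D.a 4) * D.a 2 := by rw [hE, D.C1]
  set Y := D.θ 2 (D.θ 1 D.E * D.a 3) * D.a 4 with hY
  have h0 : D.θ 0 Y * D.a 2 = 0 := by
    rw [r1] at r2
    have h2 : (2 : ℂ) • (D.θ 0 Y * D.a 2) = 0 := by
      rw [two_smul]
      nth_rewrite 1 [← r2]
      simp
    rcases smul_eq_zero.1 h2 with h3 | h3
    · norm_num at h3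
    · exact h3
  have hYY : star Y * Y = D.E := by
    have hF : D.θ 1 D.E * D.θ 1 D.E = D.θ 1 D.E := by rw [← map_mul, D.EE]
    have hFs : star (D.θ 1 D.E) = D.θ 1 D.E := by rw [← map_star, D.star_E]
    rw [hY, star_mul, ← map_star, star_mul, hFs]
    calc star (D.a 4) * D.θ 2 (star (D.a 3) * D.θ 1 D.E) * (D.θ 2 (D.θ 1 D.E * D.a 3) * D.a 4)
        = star (D.a 4) * D.θ 2 (star (D.a 3) * (D.θ 1 D.E * D.θ 1 D.E) * D.a 3) * D.a 4 := by
          simp only [map_mul, mul_assoc]
      _ = star (D.a 4) * D.θ 2 D.E * D.a 4 := by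
          rw [hF, D.norm_f 1 3 (by rw [t_single]; exact_mod_cast (by decide +kernel))]
      _ = D.E := D.norm_f 2 4 (by rw [t_single]; exact_mod_cast (by decide +kernel))
  have hfin : star (D.θ 0 Y * D.a 2) * (D.θ 0 Y * D.a 2) = D.E := by
    calc star (D.θ 0 Y * D.a 2) * (D.θ 0 Y * D.a 2)
        = star (D.a 2) * D.θ 0 (star Y * Y) * D.a 2 := by
          rw [star_mul, ← map_star, map_mul (D.θ 0) (star Y) Y]; simp only [mul_assoc]
      _ = D.E := by
          rw [hYY]
          exact D.norm_f 0 2 (by rw [t_single]; exact_mod_cast (by decide +kernel))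
  rw [h0, star_zero, zero_mul] at hfin
  exact D.E_ne hfin.symm

end Data

end

end Pool.Agent.U529.CP
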