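import Mathlib

set_option autoImplicit false

/-!
# Completely positive maps with finitely many Kraus operators
-/

open scoped CStarAlgebra

namespace Pool.Agent.U529.CP

section

variable {A : Type*} [CStarAlgebra A] [PartialOrder A] [StarOrderedRing A]

/-- The completely positive map `a ↦ ∑ V_k a V_k^*`. -/
noncomputable def kraus {m : ℕ} (V : Fin m → A) : A →CP A where
  toFun a := ∑ k, V k * a * star (V k)
  map_add' a b := by
    rw [← Finset.sum_add_distrib]
    refine Finset.sum_congr rfl fun k _ => ?_
    rw [mul_add, add_mul]
  map_smul' c a := by
    rw [RingHom.id_apply, Finset.smul_sum]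
    refine Finset.sum_congr rfl fun k _ => ?_
    rw [mul_smul_comm, smul_mul_assoc]
  map_cstarMatrix_nonneg' n M hM := by
    have h : M.map (fun a => ∑ k, V k * a * star (V k)) =
        ∑ k, (CStarMatrix.ofMatrix (Matrix.diagonal fun _ : Fin n => V k)) * M *
          star (CStarMatrix.ofMatrix (Matrix.diagonal fun _ : Fin n => V k)) := by
      ext i j
      have e : ∀ k, (((CStarMatrix.ofMatrix (Matrix.diagonal fun _ : Fin n => V k)) * M *
          star (CStarMatrix.ofMatrix (Matrix.diagonal fun _ : Fin n => V k))) :
            CStarMatrix (Fin n) (Fin n) A) i j = V k * M i j * star (V k) := by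
        intro k
        rw [CStarMatrix.mul_apply, Finset.sum_eq_single j]
        · rw [CStarMatrix.mul_apply, Finset.sum_eq_single i]
          · simp [CStarMatrix.star_eq_conjTranspose]
          · intro b _ hb
            simp [Matrix.diagonal_apply_ne _ hb.symm]
          · intro hi
            exact absurd (Finset.mem_univ i) hi
        · intro b _ hb
          simp [CStarMatrix.star_eq_conjTranspose, Matrix.diagonal_apply_ne _ hb.symm]
        · intro hj
          exact absurd (Finset.mem_univ j) hj
      have e2 : ∀ (s : Finset (Fin m)), (∑ k ∈ s, (CStarMatrix.ofMatrix (Matrix.diagonal fun _ : Fin n => V k)) * M *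
          star (CStarMatrix.ofMatrix (Matrix.diagonal fun _ : Fin n => V k)) :
            CStarMatrix (Fin n) (Fin n) A) i j = ∑ k ∈ s, V k * M i j * star (V k) := by
        classical
        intro s
        induction s using Finset.induction_on with
        | empty => simp
        | insert a s ha ih =>
          rw [Finset.sum_insert ha, Finset.sum_insert ha, CStarMatrix.add_apply, ih, e]
      rw [e2, CStarMatrix.map_apply]
    show 0 ≤ M.map (fun a => ∑ k, V k * a * star (V k))
    rw [h]
    exact Finset.sum_nonneg fun k _ => star_right_conjugate_nonneg hM _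

@[simp] theorem kraus_apply {m : ℕ} (V : Fin m → A) (a : A) :
    kraus V a = ∑ k, V k * a * star (V k) := rfl

end

end Pool.Agent.U529.CP
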