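import Pool.Agent.U529.CP.Kraus

set_option autoImplicit false

/-!
# Three commuting unital completely positive maps on the `11 × 11` matrices

The basis vectors are `Ω = 0`, `1, 2` (space `E₁`), `3` (space `E₂`), `4` (space `E₃`), `5, 6` (space
`E₁₂`), `7, 8` (space `E₁₃`), `9` (space `E₂₃`) and `ω = 10`. The shifts are
`S₁(x_k) : Ω ↦ e_k, e_3 ↦ e_{4+k}, e_4 ↦ e_{6+k}`, `k = 1, 2`,
`S₂ : Ω ↦ e_3, e_1 ↦ e_6, e_2 ↦ e_5, e_4 ↦ e_9` and `S₃ : Ω ↦ e_4, e_1 ↦ e_7, e_2 ↦ -e_8, e_3 ↦ e_9`,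
all other basis vectors are mapped to `0`. The maps are `T_i(a) = ∑ S a S^* + ⟨ω, a ω⟩ (1 - ∑ S S^*)`.
The Kraus operator number `k` of `T_i` has in the row `r` at most one nonzero entry, namely `sg_i k r`
in the column `src_i k r`.
-/

namespace Pool.Agent.U529.CP

/-- the `11 × 11` matrices -/
abbrev Mat := Matrix (Fin 11) (Fin 11) ℂ

/-- the columns of the nonzero entries of the Kraus operators of the first map -/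
def src0 : Fin 11 → Fin 11 → Fin 11 :=
  ![![10, 0, 0, 0, 0, 0, 0, 0, 0, 0, 0],
    ![0, 0, 0, 0, 0, 3, 0, 4, 0, 0, 0],
    ![0, 0, 0, 0, 0, 0, 3, 0, 4, 0, 0],
    ![0, 0, 0, 10, 0, 0, 0, 0, 0, 0, 0],
    ![0, 0, 0, 0, 10, 0, 0, 0, 0, 0, 0],
    ![0, 0, 0, 0, 0, 0, 0, 0, 0, 0, 0],
    ![0, 0, 0, 0, 0, 0, 0, 0, 0, 0, 0],
    ![0, 0, 0, 0, 0, 0, 0, 0, 0, 0, 0],
    ![0, 0, 0, 0, 0, 0, 0, 0, 0, 0, 0],
    ![0, 0, 0, 0, 0, 0, 0, 0, 0, 10, 0],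
    ![0, 0, 0, 0, 0, 0, 0, 0, 0, 0, 10]]

/-- the nonzero entries of the Kraus operators of the first map -/
def sg0 : Fin 11 → Fin 11 → ℤ :=
  ![![1, 0, 0, 0, 0, 0, 0, 0, 0, 0, 0],
    ![0, 1, 0, 0, 0, 1, 0, 1, 0, 0, 0],
    ![0, 0, 1, 0, 0, 0, 1, 0, 1, 0, 0],
    ![0, 0, 0, 1, 0, 0, 0, 0, 0, 0, 0],
    ![0, 0, 0, 0, 1, 0, 0, 0, 0, 0, 0],
    ![0, 0, 0, 0, 0, 0, 0, 0, 0, 0, 0],
    ![0, 0, 0, 0, 0, 0, 0, 0, 0, 0, 0],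
    ![0, 0, 0, 0, 0, 0, 0, 0, 0, 0, 0],
    ![0, 0, 0, 0, 0, 0, 0, 0, 0, 0, 0],
    ![0, 0, 0, 0, 0, 0, 0, 0, 0, 1, 0],
    ![0, 0, 0, 0, 0, 0, 0, 0, 0, 0, 1]]

/-- the only Kraus operator of the first map which has nonzero entries in both rows -/
def kk0 : Fin 11 → Fin 11 → Fin 11 :=
  ![![0, 0, 0, 0, 0, 0, 0, 0, 0, 0, 0],
    ![0, 1, 0, 0, 0, 1, 0, 1, 0, 0, 0],
    ![0, 0, 2, 0, 0, 0, 2, 0, 2, 0, 0],
    ![0, 0, 0, 3, 0, 0, 0, 0, 0, 0, 0],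
    ![0, 0, 0, 0, 4, 0, 0, 0, 0, 0, 0],
    ![0, 1, 0, 0, 0, 1, 0, 1, 0, 0, 0],
    ![0, 0, 2, 0, 0, 0, 2, 0, 2, 0, 0],
    ![0, 1, 0, 0, 0, 1, 0, 1, 0, 0, 0],
    ![0, 0, 2, 0, 0, 0, 2, 0, 2, 0, 0],
    ![0, 0, 0, 0, 0, 0, 0, 0, 0, 9, 0],
    ![0, 0, 0, 0, 0, 0, 0, 0, 0, 0, 10]]

/-- the columns of the nonzero entries of the Kraus operators of the second map -/
def src1 : Fin 11 → Fin 11 → Fin 11 :=
  ![![10, 0, 0, 0, 0, 0, 0, 0, 0, 0, 0],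
    ![0, 10, 0, 0, 0, 0, 0, 0, 0, 0, 0],
    ![0, 0, 10, 0, 0, 0, 0, 0, 0, 0, 0],
    ![0, 0, 0, 0, 0, 2, 1, 0, 0, 4, 0],
    ![0, 0, 0, 0, 10, 0, 0, 0, 0, 0, 0],
    ![0, 0, 0, 0, 0, 0, 0, 0, 0, 0, 0],
    ![0, 0, 0, 0, 0, 0, 0, 0, 0, 0, 0],
    ![0, 0, 0, 0, 0, 0, 0, 10, 0, 0, 0],
    ![0, 0, 0, 0, 0, 0, 0, 0, 10, 0, 0],
    ![0, 0, 0, 0, 0, 0, 0, 0, 0, 0, 0],
    ![0, 0, 0, 0, 0, 0, 0, 0, 0, 0, 10]]

/-- the nonzero entries of the Kraus operators of the second map -/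
def sg1 : Fin 11 → Fin 11 → ℤ :=
  ![![1, 0, 0, 0, 0, 0, 0, 0, 0, 0, 0],
    ![0, 1, 0, 0, 0, 0, 0, 0, 0, 0, 0],
    ![0, 0, 1, 0, 0, 0, 0, 0, 0, 0, 0],
    ![0, 0, 0, 1, 0, 1, 1, 0, 0, 1, 0],
    ![0, 0, 0, 0, 1, 0, 0, 0, 0, 0, 0],
    ![0, 0, 0, 0, 0, 0, 0, 0, 0, 0, 0],
    ![0, 0, 0, 0, 0, 0, 0, 0, 0, 0, 0],
    ![0, 0, 0, 0, 0, 0, 0, 1, 0, 0, 0],
    ![0, 0, 0, 0, 0, 0, 0, 0, 1, 0, 0],
    ![0, 0, 0, 0, 0, 0, 0, 0, 0, 0, 0],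
    ![0, 0, 0, 0, 0, 0, 0, 0, 0, 0, 1]]

/-- the only Kraus operator of the second map which has nonzero entries in both rows -/
def kk1 : Fin 11 → Fin 11 → Fin 11 :=
  ![![0, 0, 0, 0, 0, 0, 0, 0, 0, 0, 0],
    ![0, 1, 0, 0, 0, 0, 0, 0, 0, 0, 0],
    ![0, 0, 2, 0, 0, 0, 0, 0, 0, 0, 0],
    ![0, 0, 0, 3, 0, 3, 3, 0, 0, 3, 0],
    ![0, 0, 0, 0, 4, 0, 0, 0, 0, 0, 0],
    ![0, 0, 0, 3, 0, 3, 3, 0, 0, 3, 0],
    ![0, 0, 0, 3, 0, 3, 3, 0, 0, 3, 0],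
    ![0, 0, 0, 0, 0, 0, 0, 7, 0, 0, 0],
    ![0, 0, 0, 0, 0, 0, 0, 0, 8, 0, 0],
    ![0, 0, 0, 3, 0, 3, 3, 0, 0, 3, 0],
    ![0, 0, 0, 0, 0, 0, 0, 0, 0, 0, 10]]

/-- the columns of the nonzero entries of the Kraus operators of the third map -/
def src2 : Fin 11 → Fin 11 → Fin 11 :=
  ![![10, 0, 0, 0, 0, 0, 0, 0, 0, 0, 0],
    ![0, 10, 0, 0, 0, 0, 0, 0, 0, 0, 0],
    ![0, 0, 10, 0, 0, 0, 0, 0, 0, 0, 0],
    ![0, 0, 0, 10, 0, 0, 0, 0, 0, 0, 0],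
    ![0, 0, 0, 0, 0, 0, 0, 1, 2, 3, 0],
    ![0, 0, 0, 0, 0, 10, 0, 0, 0, 0, 0],
    ![0, 0, 0, 0, 0, 0, 10, 0, 0, 0, 0],
    ![0, 0, 0, 0, 0, 0, 0, 0, 0, 0, 0],
    ![0, 0, 0, 0, 0, 0, 0, 0, 0, 0, 0],
    ![0, 0, 0, 0, 0, 0, 0, 0, 0, 0, 0],
    ![0, 0, 0, 0, 0, 0, 0, 0, 0, 0, 10]]

/-- the nonzero entries of the Kraus operators of the third map -/
def sg2 : Fin 11 → Fin 11 → ℤ :=
  ![![1, 0, 0, 0, 0, 0, 0, 0, 0, 0, 0],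
    ![0, 1, 0, 0, 0, 0, 0, 0, 0, 0, 0],
    ![0, 0, 1, 0, 0, 0, 0, 0, 0, 0, 0],
    ![0, 0, 0, 1, 0, 0, 0, 0, 0, 0, 0],
    ![0, 0, 0, 0, 1, 0, 0, 1, -1, 1, 0],
    ![0, 0, 0, 0, 0, 1, 0, 0, 0, 0, 0],
    ![0, 0, 0, 0, 0, 0, 1, 0, 0, 0, 0],
    ![0, 0, 0, 0, 0, 0, 0, 0, 0, 0, 0],
    ![0, 0, 0, 0, 0, 0, 0, 0, 0, 0, 0],
    ![0, 0, 0, 0, 0, 0, 0, 0, 0, 0, 0],
    ![0, 0, 0, 0, 0, 0, 0, 0, 0, 0, 1]]

/-- the only Kraus operator of the third map which has nonzero entries in both rows -/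
def kk2 : Fin 11 → Fin 11 → Fin 11 :=
  ![![0, 0, 0, 0, 0, 0, 0, 0, 0, 0, 0],
    ![0, 1, 0, 0, 0, 0, 0, 0, 0, 0, 0],
    ![0, 0, 2, 0, 0, 0, 0, 0, 0, 0, 0],
    ![0, 0, 0, 3, 0, 0, 0, 0, 0, 0, 0],
    ![0, 0, 0, 0, 4, 0, 0, 4, 4, 4, 0],
    ![0, 0, 0, 0, 0, 5, 0, 0, 0, 0, 0],
    ![0, 0, 0, 0, 0, 0, 6, 0, 0, 0, 0],
    ![0, 0, 0, 0, 4, 0, 0, 4, 4, 4, 0],
    ![0, 0, 0, 0, 4, 0, 0, 4, 4, 4, 0],
    ![0, 0, 0, 0, 4, 0, 0, 4, 4, 4, 0],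
    ![0, 0, 0, 0, 0, 0, 0, 0, 0, 0, 10]]

/-- a matrix with at most one nonzero entry in every row -/
def Vm (sr : Fin 11 → Fin 11) (s : Fin 11 → ℤ) : Mat :=
  Matrix.of fun r p => if p = sr r then ((s r : ℤ) : ℂ) else 0

theorem Vm_conj (sr : Fin 11 → Fin 11) (s : Fin 11 → ℤ) (a : Mat) (r c : Fin 11) :
    (Vm sr s * a * star (Vm sr s)) r c = (s r : ℂ) * a (sr r) (sr c) * (s c : ℂ) := by
  rw [Matrix.mul_apply, Finset.sum_eq_single (sr c)]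
  · rw [Matrix.mul_apply, Finset.sum_eq_single (sr r)]
    · simp [Vm]
    · intro b _ hb
      simp [Vm, hb]
    · intro h
      exact absurd (Finset.mem_univ _) h
  · intro b _ hb
    simp [Vm, hb]
  · intro h
    exact absurd (Finset.mem_univ _) h

/-- the map `a ↦ ∑ V_k a V_k^*` in case of at most one relevant `k` for every entry -/
def tt (src : Fin 11 → Fin 11 → Fin 11) (sg : Fin 11 → Fin 11 → ℤ) (kk : Fin 11 → Fin 11 → Fin 11)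
    (a : Mat) : Mat :=
  Matrix.of fun r c => ((sg (kk r c) r * sg (kk r c) c : ℤ) : ℂ) *
    a (src (kk r c) r) (src (kk r c) c)

theorem kraus_tt (src : Fin 11 → Fin 11 → Fin 11) (sg : Fin 11 → Fin 11 → ℤ)
    (kk : Fin 11 → Fin 11 → Fin 11) (h : ∀ r c k, k ≠ kk r c → sg k r * sg k c = 0) (a : Mat) :
    ∑ k, Vm (src k) (sg k) * a * star (Vm (src k) (sg k)) = tt src sg kk a := by
  ext r c
  rw [Matrix.sum_apply]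
  simp only [Vm_conj]
  rw [Finset.sum_eq_single (kk r c)]
  · simp only [tt, Matrix.of_apply]
    push_cast
    ring
  · intro k _ hk
    have h1 : ((sg k r : ℂ)) * (sg k c : ℂ) = 0 := by exact_mod_cast h r c k hk
    rw [mul_right_comm, h1, zero_mul]
  · intro hk
    exact absurd (Finset.mem_univ _) hk

/-- the weight of an entry of `tt src sg kk (tt src' sg' kk' a)` -/
def wt2 (src : Fin 11 → Fin 11 → Fin 11) (sg : Fin 11 → Fin 11 → ℤ) (kk : Fin 11 → Fin 11 → Fin 11)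
    (sg' : Fin 11 → Fin 11 → ℤ) (kk' : Fin 11 → Fin 11 → Fin 11) (r c : Fin 11) : ℤ :=
  (sg (kk r c) r * sg (kk r c) c) *
    (sg' (kk' (src (kk r c) r) (src (kk r c) c)) (src (kk r c) r) *
      sg' (kk' (src (kk r c) r) (src (kk r c) c)) (src (kk r c) c))

/-- the row used for an entry of `tt src sg kk (tt src' sg' kk' a)` -/
def row2 (src : Fin 11 → Fin 11 → Fin 11) (kk : Fin 11 → Fin 11 → Fin 11)
    (src' : Fin 11 → Fin 11 → Fin 11) (kk' : Fin 11 → Fin 11 → Fin 11) (r c : Fin 11) : Fin 11 :=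
  src' (kk' (src (kk r c) r) (src (kk r c) c)) (src (kk r c) r)

/-- the column used for an entry of `tt src sg kk (tt src' sg' kk' a)` -/
def col2 (src : Fin 11 → Fin 11 → Fin 11) (kk : Fin 11 → Fin 11 → Fin 11)
    (src' : Fin 11 → Fin 11 → Fin 11) (kk' : Fin 11 → Fin 11 → Fin 11) (r c : Fin 11) : Fin 11 :=
  src' (kk' (src (kk r c) r) (src (kk r c) c)) (src (kk r c) c)

theorem tt_tt (src : Fin 11 → Fin 11 → Fin 11) (sg : Fin 11 → Fin 11 → ℤ)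
    (kk : Fin 11 → Fin 11 → Fin 11) (src' : Fin 11 → Fin 11 → Fin 11) (sg' : Fin 11 → Fin 11 → ℤ)
    (kk' : Fin 11 → Fin 11 → Fin 11) (a : Mat) (r c : Fin 11) :
    tt src sg kk (tt src' sg' kk' a) r c = (wt2 src sg kk sg' kk' r c : ℂ) *
      a (row2 src kk src' kk' r c) (col2 src kk src' kk' r c) := by
  simp only [tt, wt2, row2, col2, Matrix.of_apply]
  push_cast
  ring

theorem comm_tt (src : Fin 11 → Fin 11 → Fin 11) (sg : Fin 11 → Fin 11 → ℤ)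
    (kk : Fin 11 → Fin 11 → Fin 11) (src' : Fin 11 → Fin 11 → Fin 11) (sg' : Fin 11 → Fin 11 → ℤ)
    (kk' : Fin 11 → Fin 11 → Fin 11)
    (h : ∀ r c, wt2 src sg kk sg' kk' r c = wt2 src' sg' kk' sg kk r c ∧
      (wt2 src sg kk sg' kk' r c = 0 ∨
        (row2 src kk src' kk' r c = row2 src' kk' src kk r c ∧
          col2 src kk src' kk' r c = col2 src' kk' src kk r c))) (a : Mat) :
    tt src sg kk (tt src' sg' kk' a) = tt src' sg' kk' (tt src sg kk a) := by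
  ext r c
  rw [tt_tt, tt_tt]
  obtain ⟨h1, h2 | ⟨h2, h3⟩⟩ := h r c
  · rw [← h1, h2]
    simp
  · rw [← h1, h2, h3]

theorem unital_tt (src : Fin 11 → Fin 11 → Fin 11) (sg : Fin 11 → Fin 11 → ℤ)
    (kk : Fin 11 → Fin 11 → Fin 11)
    (h : ∀ r c, (if src (kk r c) r = src (kk r c) c then sg (kk r c) r * sg (kk r c) c else 0) =
      if r = c then 1 else 0) : tt src sg kk 1 = 1 := by
  ext r c
  have h1 := h r c
  simp only [tt, Matrix.of_apply, Matrix.one_apply]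
  have h2 : (((if src (kk r c) r = src (kk r c) c then sg (kk r c) r * sg (kk r c) c else 0 : ℤ)) : ℂ) =
      ((if r = c then 1 else 0 : ℤ) : ℂ) := by rw [h1]
  split_ifs at h2 ⊢ <;> simp_all

/-- the first map -/
def t0 : Mat → Mat := tt src0 sg0 kk0

theorem kraus_t0 (a : Mat) : ∑ k, Vm (src0 k) (sg0 k) * a * star (Vm (src0 k) (sg0 k)) = t0 a :=
  kraus_tt _ _ _ (by decide +kernel) a

theorem unital0 : t0 1 = 1 := unital_tt _ _ _ (by decide +kernel)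

/-- the second map -/
def t1 : Mat → Mat := tt src1 sg1 kk1

theorem kraus_t1 (a : Mat) : ∑ k, Vm (src1 k) (sg1 k) * a * star (Vm (src1 k) (sg1 k)) = t1 a :=
  kraus_tt _ _ _ (by decide +kernel) a

theorem unital1 : t1 1 = 1 := unital_tt _ _ _ (by decide +kernel)

/-- the third map -/
def t2 : Mat → Mat := tt src2 sg2 kk2

theorem kraus_t2 (a : Mat) : ∑ k, Vm (src2 k) (sg2 k) * a * star (Vm (src2 k) (sg2 k)) = t2 a :=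
  kraus_tt _ _ _ (by decide +kernel) a

theorem unital2 : t2 1 = 1 := unital_tt _ _ _ (by decide +kernel)

theorem comm01 (a : Mat) : t0 (t1 a) = t1 (t0 a) := comm_tt _ _ _ _ _ _ (by decide +kernel) a

theorem comm02 (a : Mat) : t0 (t2 a) = t2 (t0 a) := comm_tt _ _ _ _ _ _ (by decide +kernel) a

theorem comm12 (a : Mat) : t1 (t2 a) = t2 (t1 a) := comm_tt _ _ _ _ _ _ (by decide +kernel) a

end Pool.Agent.U529.CP
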